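import Mathlib.Data.List.Cycle
import Mathlib.Data.List.Permutation
import Mathlib.Data.Set.Card
import Mathlib.Data.Nat.Nth
import Mathlib.Tactic

/-!
# MP_f664e7: a cyclic shuffle-compatible statistic that is not a cyclic descent statistic
-/

namespace Pool.Agent.Results.MP_f664e7_co.Disproof

open List

/-! ### Definitions -/

/-- A (linear) permutation: a word of distinct positive integers. -/
def IsPerm (p : List ℕ) : Prop := p.Nodup ∧ ∀ x ∈ p, 0 < x

/-- Two words of the same length have the same relative order. -/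
def SameOrder (p q : List ℕ) : Prop :=
  p.length = q.length ∧ ∀ (i j : ℕ) (hi : i < p.length) (hj : j < p.length) (hi' : i < q.length)
    (hj' : j < q.length), (p[i] < p[j] ↔ q[i] < q[j])

/-- A cyclic permutation statistic: a function on cyclic words (`Cycle ℕ` is the type of words up
to rotation) such that words with the same relative order get the same value. -/
def IsStatistic {α : Type} (cst : Cycle ℕ → α) : Prop :=
  ∀ p q : List ℕ, IsPerm p → IsPerm q → SameOrder p q → cst (p : Cycle ℕ) = cst (q : Cycle ℕ)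

/-- The set of cyclic shuffles of `[p]` and `[q]`: the cyclic permutations `[t]`, with `t` a
permutation of length `|p| + |q|` containing some rotation of `p` and some rotation of `q` as
subsequences. -/
def shuffles (p q : List ℕ) : Set (Cycle ℕ) :=
  {c | ∃ t : List ℕ, IsPerm t ∧ t.length = p.length + q.length ∧
    (∃ p' : List ℕ, p' ~r p ∧ p' <+ t) ∧ (∃ q' : List ℕ, q' ~r q ∧ q' <+ t) ∧
      (t : Cycle ℕ) = c}

/-- Two sets of cyclic permutations have the same distribution of `cst`: every value is taken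
equally often (the sets of shuffles are finite, see `shuffles_finite`). -/
def SameDistribution {α : Type} (cst : Cycle ℕ → α) (S T : Set (Cycle ℕ)) : Prop :=
  ∀ a : α, Set.ncard {c ∈ S | cst c = a} = Set.ncard {c ∈ T | cst c = a}

/-- Cyclic shuffle-compatibility. -/
def ShuffleCompatible {α : Type} (cst : Cycle ℕ → α) : Prop :=
  ∀ p q p' q' : List ℕ, IsPerm p → IsPerm q → IsPerm p' → IsPerm q' →
    p.Disjoint q → p'.Disjoint q' → cst (p : Cycle ℕ) = cst (p' : Cycle ℕ) →
    cst (q : Cycle ℕ) = cst (q' : Cycle ℕ) → p.length = p'.length → q.length = q'.length →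
    SameDistribution cst (shuffles p q) (shuffles p' q')

/-- The cyclic descent set of a word of length `n`: the positions `i` with `p_i > p_{i+1}`, indices
modulo `n`; positions are numbered `0, …, n - 1` here. -/
def cDes (p : List ℕ) : Finset ℕ :=
  (Finset.range p.length).filter fun i =>
    p.getD i 0 > p.getD ((i + 1) % p.length) 0

/-- The multiset of the cyclic descent sets of the rotations of `p`. -/
def cDesMultiset (p : List ℕ) : Multiset (Finset ℕ) :=
  (Multiset.range p.length).map fun k => cDes (p.rotate k)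

/-! ### The statistic -/

/-- the class on which the statistic takes the value `1` -/
def classA : List (List ℕ) :=
  [[5,1,3,2,4], [5,1,4,2,3], [5,2,1,3,4], [5,2,1,4,3], [5,2,3,4,1], [5,2,4,3,1],
   [5,3,1,2,4], [5,3,1,4,2], [5,3,4,2,1], [5,4,1,2,3], [5,4,1,3,2], [5,4,3,2,1]]

open scoped Classical in
/-- The statistic: `1` if some rotation has the same relative order as a member of `classA`,
and `0` otherwise. -/
noncomputable def cst (c : Cycle ℕ) : ℕ :=
  if ∃ t : List ℕ, (t : Cycle ℕ) = c ∧ ∃ a ∈ classA, SameOrder t a then 1 else 0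

/-! ### Relative order -/

theorem SameOrder.symm {p q : List ℕ} (h : SameOrder p q) : SameOrder q p :=
  ⟨h.1.symm, fun i j hi hj hi' hj' => (h.2 i j hi' hj' hi hj).symm⟩

theorem SameOrder.trans {p q r : List ℕ} (h : SameOrder p q) (h' : SameOrder q r) :
    SameOrder p r :=
  ⟨h.1.trans h'.1, fun i j hi hj hi' hj' =>
    (h.2 i j hi hj (h.1 ▸ hi) (h.1 ▸ hj)).trans (h'.2 i j (h.1 ▸ hi) (h.1 ▸ hj) hi' hj')⟩

theorem SameOrder.rotate {p q : List ℕ} (h : SameOrder p q) (k : ℕ) :
    SameOrder (p.rotate k) (q.rotate k) := by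
  refine ⟨by simp [h.1], fun i j hi hj hi' hj' => ?_⟩
  rw [List.getElem_rotate, List.getElem_rotate, List.getElem_rotate, List.getElem_rotate]
  have hp : 0 < p.length := by
    rw [List.length_rotate] at hi
    omega
  have hq : 0 < q.length := h.1 ▸ hp
  have := h.2 ((i + k) % p.length) ((j + k) % p.length) (Nat.mod_lt _ hp) (Nat.mod_lt _ hp)
    (h.1 ▸ Nat.mod_lt _ hp) (h.1 ▸ Nat.mod_lt _ hp)
  simp only [h.1] at this ⊢
  exact this

theorem SameOrder.map {e : ℕ → ℕ} (he : StrictMono e) (p : List ℕ) : SameOrder p (p.map e) := by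
  refine ⟨by simp, fun i j hi hj hi' hj' => ?_⟩
  rw [List.getElem_map, List.getElem_map]
  exact he.lt_iff_lt.symm

theorem cst_eq_of_sameOrder {p q : List ℕ} (h : SameOrder p q) :
    cst (p : Cycle ℕ) = cst (q : Cycle ℕ) := by
  have key : ∀ p q : List ℕ, SameOrder p q →
      (∃ t : List ℕ, (t : Cycle ℕ) = (p : Cycle ℕ) ∧ ∃ a ∈ classA, SameOrder t a) →
      ∃ t : List ℕ, (t : Cycle ℕ) = (q : Cycle ℕ) ∧ ∃ a ∈ classA, SameOrder t a := by
    rintro p q h ⟨t, ht, a, ha, hta⟩
    rw [Cycle.coe_eq_coe] at ht
    obtain ⟨k, hk⟩ := ht.symm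
    refine ⟨q.rotate k, ?_, a, ha, ?_⟩
    · rw [Cycle.coe_eq_coe]
      exact List.IsRotated.symm ⟨k, rfl⟩
    · subst hk
      exact (h.rotate k).symm.trans hta
  unfold cst
  by_cases h1 : ∃ t : List ℕ, (t : Cycle ℕ) = (p : Cycle ℕ) ∧ ∃ a ∈ classA, SameOrder t a
  · rw [if_pos h1, if_pos (key p q h h1)]
  · rw [if_neg h1, if_neg fun h2 => h1 (key q p h.symm h2)]

theorem cst_isStatistic : IsStatistic cst := fun _ _ _ _ h => cst_eq_of_sameOrder h

theorem length_of_mem_classA : ∀ a ∈ classA, a.length = 5 := by decide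

theorem cst_eq_zero {t : List ℕ} (h : t.length ≠ 5) : cst (t : Cycle ℕ) = 0 := by
  unfold cst
  rw [if_neg]
  rintro ⟨s, hs, a, ha, hsa⟩
  apply h
  rw [Cycle.coe_eq_coe] at hs
  rw [← hs.perm.length_eq, hsa.1]
  exact length_of_mem_classA a ha

theorem cst_le_one (c : Cycle ℕ) : cst c = 0 ∨ cst c = 1 := by
  unfold cst
  split_ifs
  · exact Or.inr rfl
  · exact Or.inl rfl

theorem cst_map {e : ℕ → ℕ} (he : StrictMono e) (c : Cycle ℕ) : cst (c.map e) = cst c := by
  induction c using Quotient.inductionOn' with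
  | h l => exact (cst_eq_of_sameOrder (SameOrder.map he l)).symm

/-! ### Shuffles -/

theorem perm_of_sublists {p q t : List ℕ} (hd : p.Disjoint q) (hp : p.Nodup) (hq : q.Nodup)
    (ht : t.length = p.length + q.length) (h1 : p <+ t) (h2 : q <+ t) : p ++ q ~ t := by
  have hn : (p ++ q).Nodup := List.nodup_append'.mpr ⟨hp, hq, hd⟩
  have hsub : p ++ q ⊆ t := by
    intro x hx
    rcases List.mem_append.mp hx with h | h
    · exact h1.subset h
    · exact h2.subset h
  refine List.Subperm.perm_of_length_le (List.subperm_of_subset hn hsub) ?_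
  rw [ht, List.length_append]

theorem shuffles_comm (p q : List ℕ) : shuffles p q = shuffles q p := by
  ext c
  constructor <;>
  · rintro ⟨t, h1, h2, h3, h4, h5⟩
    exact ⟨t, h1, by omega, h4, h3, h5⟩

theorem mem_of_isRotated {p p' : List ℕ} (h : p' ~r p) (x : ℕ) : x ∈ p' ↔ x ∈ p := h.mem_iff

/-- Every shuffle has a representative which is a permutation of `p ++ q`. -/
theorem perm_of_mem_shuffles {p q t : List ℕ} (hd : p.Disjoint q) (hp : IsPerm p) (hq : IsPerm q)
    (ht : t.length = p.length + q.length) (h1 : ∃ p' : List ℕ, p' ~r p ∧ p' <+ t)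
    (h2 : ∃ q' : List ℕ, q' ~r q ∧ q' <+ t) : t ~ p ++ q := by
  obtain ⟨p', hp', hp''⟩ := h1
  obtain ⟨q', hq', hq''⟩ := h2
  have hd' : p'.Disjoint q' := fun x hx hx' => hd (hp'.mem_iff.mp hx) (hq'.mem_iff.mp hx')
  have := perm_of_sublists hd' (hp'.nodup_iff.mpr hp.1) (hq'.nodup_iff.mpr hq.1)
    (by rw [ht, hp'.perm.length_eq, hq'.perm.length_eq]) hp'' hq''
  exact this.symm.trans (hp'.perm.append hq'.perm)

theorem shuffles_finite {p q : List ℕ} (hd : p.Disjoint q) (hp : IsPerm p) (hq : IsPerm q) :
    (shuffles p q).Finite := by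
  have : shuffles p q ⊆ (fun t : List ℕ => (t : Cycle ℕ)) '' {t | t ∈ (p ++ q).permutations'} := by
    rintro c ⟨t, -, h2, h3, h4, rfl⟩
    exact ⟨t, List.mem_permutations'.mpr (perm_of_mem_shuffles hd hp hq h2 h3 h4), rfl⟩
  exact (Set.Finite.image _ (List.finite_toSet _)).subset this

theorem map_injective {g : ℕ → ℕ} (hg : Function.Injective g) :
    Function.Injective (Cycle.map g : Cycle ℕ → Cycle ℕ) := by
  have hl : Function.LeftInverse (Function.invFun g) g := Function.leftInverse_invFun hg
  have : Function.LeftInverse (Cycle.map (Function.invFun g)) (Cycle.map g : Cycle ℕ → Cycle ℕ) := by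
    intro c
    induction c using Quotient.inductionOn' with
    | h l =>
      change (((l.map g).map (Function.invFun g) : List ℕ) : Cycle ℕ) = (l : Cycle ℕ)
      rw [List.map_map, hl.comp_eq_id, List.map_id]
  exact this.injective

/-- Relabelling the letters. -/
theorem shuffles_map {g : ℕ → ℕ} (hg : Function.Injective g) (hpos : ∀ x, 0 < g x ↔ 0 < x)
    {p q : List ℕ} (hd : p.Disjoint q) (hp : IsPerm p) (hq : IsPerm q) :
    shuffles (p.map g) (q.map g) = Cycle.map g '' shuffles p q := by
  have hl : Function.LeftInverse (Function.invFun g) g := Function.leftInverse_invFun hg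
  have hperm : ∀ {l : List ℕ}, IsPerm l → IsPerm (l.map g) := fun {l} h =>
    ⟨h.1.map hg, fun x hx => by
      rw [List.mem_map] at hx
      obtain ⟨y, hy, rfl⟩ := hx
      exact (hpos y).mpr (h.2 y hy)⟩
  ext c
  constructor
  · rintro ⟨t, ht, hlen, h3, h4, rfl⟩
    have hd' : (p.map g).Disjoint (q.map g) := by
      intro x hx hx'
      rw [List.mem_map] at hx hx'
      obtain ⟨y, hy, rfl⟩ := hx
      obtain ⟨z, hz, hzy⟩ := hx'
      rw [hg hzy] at hz
      exact hd hy hz
    have hpt := perm_of_mem_shuffles hd' (hperm hp) (hperm hq) hlen h3 h4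
    have hmem : ∀ x ∈ t, g (Function.invFun g x) = x := by
      intro x hx
      have := hpt.mem_iff.mp hx
      rw [← List.map_append, List.mem_map] at this
      obtain ⟨y, -, rfl⟩ := this
      rw [hl y]
    set t0 := t.map (Function.invFun g) with ht0
    have hmap : t0.map g = t := by
      rw [ht0, List.map_map]
      conv_rhs => rw [← List.map_id t]
      exact List.map_congr_left fun x hx => hmem x hx
    refine ⟨(t0 : Cycle ℕ), ⟨t0, ?_, ?_, ?_, ?_, rfl⟩, ?_⟩
    · refine ⟨?_, fun x hx => ?_⟩
      · have := ht.1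
        rw [← hmap] at this
        exact List.Nodup.of_map g this
      · have : g x ∈ t := by
          rw [← hmap]
          exact List.mem_map_of_mem hx
        exact (hpos x).mp (ht.2 _ this)
    · have := hlen
      rw [← hmap] at this
      simpa using this
    · obtain ⟨p', hp', hp''⟩ := h3
      refine ⟨p'.map (Function.invFun g), ?_, hp''.map _⟩
      have := hp'.map (Function.invFun g)
      rwa [List.map_map, hl.comp_eq_id, List.map_id] at this
    · obtain ⟨q', hq', hq''⟩ := h4
      refine ⟨q'.map (Function.invFun g), ?_, hq''.map _⟩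
      have := hq'.map (Function.invFun g)
      rwa [List.map_map, hl.comp_eq_id, List.map_id] at this
    · rw [Cycle.map_coe, hmap]
  · rintro ⟨c, ⟨t, ht, hlen, ⟨p', hp', hp''⟩, ⟨q', hq', hq''⟩, rfl⟩, rfl⟩
    refine ⟨t.map g, hperm ht, by simpa using hlen, ⟨p'.map g, hp'.map g, hp''.map g⟩,
      ⟨q'.map g, hq'.map g, hq''.map g⟩, ?_⟩
    rw [Cycle.map_coe]

/-- One of the two rotations can be normalised. -/
theorem shuffle_normalise {p q t : List ℕ} (h1 : ∃ p' : List ℕ, p' ~r p ∧ p' <+ t)
    (h2 : ∃ q' : List ℕ, q' ~r q ∧ q' <+ t) :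
    ∃ t' : List ℕ, t' ~r t ∧ p <+ t' ∧ ∃ q' : List ℕ, q' ~r q ∧ q' <+ t' := by
  obtain ⟨p', hp', hp''⟩ := h1
  obtain ⟨q', hq', hq''⟩ := h2
  obtain ⟨k, hk⟩ := hp'.symm
  have hsplit : ∃ a b : List ℕ, p = a ++ b ∧ p' = b ++ a := by
    refine ⟨p.take (k % p.length), p.drop (k % p.length), (List.take_append_drop _ _).symm, ?_⟩
    rw [← hk, List.rotate_eq_drop_append_take_mod]
  obtain ⟨a, b, rfl, rfl⟩ := hsplit
  obtain ⟨u, v, rfl, hu, hv⟩ := List.append_sublist_iff.mp hp''
  obtain ⟨c, d, rfl, hc, hd⟩ := List.sublist_append_iff.mp hq''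
  exact ⟨v ++ u, List.isRotated_append, hv.append hu, d ++ c,
    (List.isRotated_append).trans hq', hd.append hc⟩

/-! ### The finite check -/

/-- the rotations of a list -/
def rots (l : List ℕ) : List (List ℕ) := (List.range (l.length + 1)).map fun k => l.rotate k

theorem mem_rots {l l' : List ℕ} : l' ∈ rots l ↔ l' ~r l := by
  unfold rots
  rw [List.mem_map]
  constructor
  · rintro ⟨k, -, rfl⟩
    exact List.IsRotated.symm ⟨k, rfl⟩
  · intro h
    obtain ⟨k, hk, h⟩ := List.isRotated_iff_mod.mp h.symm
    exact ⟨k, List.mem_range.mpr (by omega), h⟩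

/-- `[t]` is a shuffle of `[p]` and `[q]` -/
def isShuffle (p q t : List ℕ) : Bool :=
  (rots t).any fun t' => p.isSublist t' && ((rots q).any fun q' => q'.isSublist t')

/-- the words over `1, …, 5` starting with `5` -/
def canon : List (List ℕ) := ([1,2,3,4].permutations').map (5 :: ·)

def half (m : ℕ) : ℕ := if m = 1 then 2 else 6

/-- exactly `half m` shuffles lie in the class and exactly `half m` do not -/
def check (m : ℕ) (w : List ℕ) : Bool :=
  ((canon.filter fun t => isShuffle (w.take m) (w.drop m) t && classA.contains t).length == half m) &&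
  ((canon.filter fun t => isShuffle (w.take m) (w.drop m) t && !classA.contains t).length == half m)

set_option maxRecDepth 100000 in
theorem check_one : ([1,2,3,4,5].permutations').all (check 1) = true := by decide +kernel

set_option maxRecDepth 100000 in
theorem check_two : ([1,2,3,4,5].permutations').all (check 2) = true := by decide +kernel

theorem sublist_iff {p q : List ℕ} : p.isSublist q = true ↔ p <+ q := List.isSublist_iff_sublist

theorem mem_shuffles_iff {p q t : List ℕ} (ht : IsPerm t) (hlen : t.length = p.length + q.length) :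
    (t : Cycle ℕ) ∈ shuffles p q ↔ isShuffle p q t = true := by
  unfold isShuffle
  rw [List.any_eq_true]
  constructor
  · rintro ⟨t1, -, -, h3, h4, h5⟩
    rw [Cycle.coe_eq_coe] at h5
    obtain ⟨t', ht', hp, q', hq', hq''⟩ := shuffle_normalise h3 h4
    refine ⟨t', mem_rots.mpr (ht'.trans h5), ?_⟩
    rw [Bool.and_eq_true, List.any_eq_true]
    exact ⟨sublist_iff.mpr hp, q', mem_rots.mpr hq', sublist_iff.mpr hq''⟩
  · rintro ⟨t', ht', h⟩
    rw [Bool.and_eq_true, List.any_eq_true] at h
    obtain ⟨hp, q', hq', hq''⟩ := h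
    rw [mem_rots] at ht' hq'
    refine ⟨t', ⟨ht'.nodup_iff.mpr ht.1, fun x hx => ht.2 x (ht'.mem_iff.mp hx)⟩, ?_,
      ⟨p, List.IsRotated.refl p, sublist_iff.mp hp⟩, ⟨q', hq', sublist_iff.mp hq''⟩, ?_⟩
    · rw [ht'.perm.length_eq, hlen]
    · rw [Cycle.coe_eq_coe]
      exact ht'

/-- boolean version of `SameOrder` -/
def sameOrderB (p q : List ℕ) : Bool :=
  (List.range 5).all fun i => (List.range 5).all fun j =>
    decide (p.getD i 0 < p.getD j 0) == decide (q.getD i 0 < q.getD j 0)

theorem sameOrderB_of {p q : List ℕ} (h : SameOrder p q) (hq : q.length = 5) :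
    sameOrderB p q = true := by
  unfold sameOrderB
  rw [List.all_eq_true]
  intro i hi
  rw [List.all_eq_true]
  intro j hj
  rw [List.mem_range] at hi hj
  have hp : p.length = 5 := h.1.trans hq
  rw [beq_iff_eq, decide_eq_decide]
  have := h.2 i j (hp ▸ hi) (hp ▸ hj) (hq ▸ hi) (hq ▸ hj)
  rw [List.getD_eq_getElem _ _ (hp ▸ hi), List.getD_eq_getElem _ _ (hp ▸ hj),
    List.getD_eq_getElem _ _ (hq ▸ hi), List.getD_eq_getElem _ _ (hq ▸ hj)]
  exact this

set_option maxRecDepth 100000 in
theorem check_std : (canon.all fun t => (rots t).all fun t' => classA.all fun a =>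
    !(sameOrderB t' a) || t' == a) = true := by decide +kernel

set_option maxRecDepth 100000 in
theorem check_inj : (canon.all fun t => canon.all fun s => !((rots t).contains s) || s == t) = true := by
  decide +kernel

theorem canon_nodup : canon.Nodup := by decide +kernel

theorem classA_sub : ∀ a ∈ classA, a ∈ canon := by decide +kernel

theorem canon_inj {s t : List ℕ} (hs : s ∈ canon) (ht : t ∈ canon) (h : s ~r t) : s = t := by
  have h1 := List.all_eq_true.mp check_inj t ht
  have h2 := List.all_eq_true.mp h1 s hs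
  rw [Bool.or_eq_true] at h2
  rcases h2 with h2 | h2
  · rw [Bool.not_eq_true'] at h2
    have h3 : (rots t).contains s = true := by
      rw [List.contains_iff_mem]
      exact mem_rots.mpr h
    rw [h2] at h3
    exact absurd h3 Bool.false_ne_true
  · exact beq_iff_eq.mp h2

theorem SameOrder.refl (p : List ℕ) : SameOrder p p := ⟨rfl, fun _ _ _ _ _ _ => Iff.rfl⟩

theorem cst_canon {t : List ℕ} (ht : t ∈ canon) : cst (t : Cycle ℕ) = 1 ↔ t ∈ classA := by
  unfold cst
  constructor
  · intro h
    split_ifs at h with h1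
    · obtain ⟨t', ht', a, ha, hta⟩ := h1
      rw [Cycle.coe_eq_coe] at ht'
      have h1 := List.all_eq_true.mp check_std t ht
      have h2 := List.all_eq_true.mp h1 t' (mem_rots.mpr ht')
      have h3 := List.all_eq_true.mp h2 a ha
      rw [Bool.or_eq_true] at h3
      rcases h3 with h3 | h3
      · rw [sameOrderB_of hta (length_of_mem_classA a ha)] at h3
        exact absurd h3 (by decide)
      · rw [beq_iff_eq] at h3
        subst h3
        have := canon_inj ht (classA_sub _ ha) ht'.symm
        rwa [this]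
  · intro h
    rw [if_pos]
    exact ⟨t, rfl, t, h, SameOrder.refl t⟩

theorem mem_canon {t : List ℕ} : t ∈ canon ↔ ∃ s : List ℕ, s ~ [1,2,3,4] ∧ 5 :: s = t := by
  unfold canon
  rw [List.mem_map]
  simp only [List.mem_permutations']

theorem canon_perm {t : List ℕ} (ht : t ∈ canon) : t ~ [1,2,3,4,5] := by
  obtain ⟨s, hs, rfl⟩ := mem_canon.mp ht
  exact (List.Perm.cons 5 hs).trans (by decide)

theorem isPerm_of_perm {t : List ℕ} (ht : t ~ [1,2,3,4,5]) : IsPerm t := by
  refine ⟨ht.nodup_iff.mpr (by decide), fun x hx => ?_⟩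
  have := ht.mem_iff.mp hx
  simp only [List.mem_cons, List.not_mem_nil, or_false] at this
  omega

theorem exists_canon {t : List ℕ} (ht : t ~ [1,2,3,4,5]) : ∃ s ∈ canon, s ~r t := by
  have h5 : 5 ∈ t := ht.mem_iff.mpr (by decide)
  obtain ⟨a, b, rfl⟩ := List.append_of_mem h5
  refine ⟨5 :: (b ++ a), mem_canon.mpr ⟨b ++ a, ?_, rfl⟩, ?_⟩
  · have h1 : a ++ 5 :: b ~ 5 :: (a ++ b) := List.perm_middle
    have h2 : 5 :: (a ++ b) ~ 5 :: [1,2,3,4] := h1.symm.trans (ht.trans (by decide))
    exact List.perm_append_comm.trans ((List.perm_cons 5).mp h2)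
  · have : (5 :: b) ++ a ~r a ++ (5 :: b) := List.isRotated_append
    simpa using this

/-- The number of shuffles with a given value, for words over `1, …, 5`. -/
theorem ncard_eq_length {w : List ℕ} (hw : w ~ [1,2,3,4,5]) (m : ℕ) (P : Cycle ℕ → Prop)
    (f : List ℕ → Bool) (hf : ∀ t ∈ canon, P (t : Cycle ℕ) ↔ f t = true) :
    Set.ncard {c ∈ shuffles (w.take m) (w.drop m) | P c} =
      (canon.filter fun t => isShuffle (w.take m) (w.drop m) t && f t).length := by
  have hlen : (w.take m).length + (w.drop m).length = 5 := by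
    rw [← List.length_append, List.take_append_drop, hw.length_eq]
    rfl
  have hwp := isPerm_of_perm hw
  have hp : IsPerm (w.take m) := ⟨hwp.1.sublist (List.take_sublist m w), fun x hx =>
    hwp.2 x (List.mem_of_mem_take hx)⟩
  have hq : IsPerm (w.drop m) := ⟨hwp.1.sublist (List.drop_sublist m w), fun x hx =>
    hwp.2 x (List.mem_of_mem_drop hx)⟩
  have hd : (w.take m).Disjoint (w.drop m) := by
    have := hwp.1
    rw [← List.take_append_drop m w, List.nodup_append'] at this
    exact this.2.2
  have hset : {c ∈ shuffles (w.take m) (w.drop m) | P c} =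
      (fun t : List ℕ => (t : Cycle ℕ)) ''
        {t | t ∈ canon.filter fun t => isShuffle (w.take m) (w.drop m) t && f t} := by
    ext c
    constructor
    · rintro ⟨⟨t, ht, h2, h3, h4, rfl⟩, hc⟩
      have hperm : t ~ [1,2,3,4,5] := by
        refine (perm_of_mem_shuffles hd hp hq h2 h3 h4).trans ?_
        rw [List.take_append_drop]
        exact hw
      obtain ⟨s, hs, hst⟩ := exists_canon hperm
      have hst' : (s : Cycle ℕ) = (t : Cycle ℕ) := Cycle.coe_eq_coe.mpr hst
      refine ⟨s, ?_, hst'⟩
      rw [Set.mem_ofPred_eq, List.mem_filter, Bool.and_eq_true]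
      refine ⟨hs, ?_, ?_⟩
      · rw [← mem_shuffles_iff (isPerm_of_perm (canon_perm hs)) (by
          rw [hlen, (canon_perm hs).length_eq]; rfl), hst']
        exact ⟨t, ht, h2, h3, h4, rfl⟩
      · rw [← hf s hs, hst']
        exact hc
    · rintro ⟨t, ht, rfl⟩
      rw [Set.mem_ofPred_eq, List.mem_filter, Bool.and_eq_true] at ht
      obtain ⟨h1, h2, h3⟩ := ht
      refine ⟨?_, (hf t h1).mpr h3⟩
      rw [mem_shuffles_iff (isPerm_of_perm (canon_perm h1)) (by
          rw [hlen, (canon_perm h1).length_eq]; rfl)]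
      exact h2
  rw [hset, Set.InjOn.ncard_image]
  · have : {t | t ∈ canon.filter fun t => isShuffle (w.take m) (w.drop m) t && f t} =
        ((canon.filter fun t => isShuffle (w.take m) (w.drop m) t && f t).toFinset : Set (List ℕ)) := by
      ext t
      simp
    rw [this, Set.ncard_coe_finset, List.toFinset_card_of_nodup (canon_nodup.filter _)]
  · intro s hs t ht hst
    rw [Set.mem_ofPred_eq, List.mem_filter] at hs ht
    exact canon_inj hs.1 ht.1 (Cycle.coe_eq_coe.mp hst)

/-- the common number of shuffles with value `a` -/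
def count (m a : ℕ) : ℕ := if a ≤ 1 then half m else 0

theorem ncard_std {w : List ℕ} (hw : w ~ [1,2,3,4,5]) (m : ℕ) (hm : m = 1 ∨ m = 2) (a : ℕ) :
    Set.ncard {c ∈ shuffles (w.take m) (w.drop m) | cst c = a} = count m a := by
  have hmem : w ∈ [1,2,3,4,5].permutations' := List.mem_permutations'.mpr hw
  have hcheck : check m w = true := by
    rcases hm with rfl | rfl
    · exact List.all_eq_true.mp check_one w hmem
    · exact List.all_eq_true.mp check_two w hmem
  unfold check at hcheck
  rw [Bool.and_eq_true, beq_iff_eq, beq_iff_eq] at hcheck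
  unfold count
  rcases Nat.lt_or_ge 1 a with h | h
  · rw [if_neg (by omega)]
    have : {c ∈ shuffles (w.take m) (w.drop m) | cst c = a} = ∅ := by
      rw [Set.eq_empty_iff_forall_notMem]
      rintro c ⟨-, hc⟩
      rcases cst_le_one c with h1 | h1 <;> omega
    rw [this, Set.ncard_empty]
  · rw [if_pos h]
    rcases Nat.le_one_iff_eq_zero_or_eq_one.mp h with rfl | rfl
    · rw [ncard_eq_length hw m (fun c => cst c = 0) (fun t => !classA.contains t)]
      · exact hcheck.2
      · intro t ht
        have h1 := cst_canon ht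
        rw [Bool.not_eq_true', ← Bool.not_eq_true, List.contains_iff_mem, ← h1]
        rcases cst_le_one (t : Cycle ℕ) with h2 | h2 <;> rw [h2] <;> simp
    · rw [ncard_eq_length hw m (fun c => cst c = 1) (fun t => classA.contains t)]
      · exact hcheck.1
      · intro t ht
        rw [List.contains_iff_mem]
        exact cst_canon ht

/-- Standardisation. -/
theorem exists_std {w : List ℕ} (hw : IsPerm w) (hlen : w.length = 5) :
    ∃ (e : ℕ → ℕ) (w0 : List ℕ), StrictMono e ∧ (∀ x, 0 < e x ↔ 0 < x) ∧
      w0 ~ [1,2,3,4,5] ∧ w = w0.map e := by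
  set M := w.foldr max 0 with hM
  have hle : ∀ x ∈ w, x ≤ M := by
    intro x hx
    rw [hM]
    clear hM hlen hw
    induction w with
    | nil => simp at hx
    | cons a l ih =>
      rw [List.foldr_cons]
      rcases List.mem_cons.mp hx with rfl | h
      · exact le_max_left _ _
      · exact (ih h).trans (le_max_right _ _)
  let P : ℕ → Prop := fun x => x = 0 ∨ x ∈ w ∨ M < x
  have hinf : (Set.ofPred P).Infinite := by
    refine Set.infinite_of_not_bddAbove ?_
    rintro ⟨B, hB⟩
    have : max B M + 1 ∈ Set.ofPred P := Or.inr (Or.inr (by omega))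
    have := hB this
    omega
  classical
  have hmono : StrictMono (Nat.nth P) := Nat.nth_strictMono hinf
  have h0 : Nat.nth P 0 = 0 := by
    have h1 := Nat.nth_count (p := P) (n := 0) (Or.inl rfl)
    rwa [Nat.count_zero] at h1
  have hw0 : ∀ x ∈ w, Nat.nth P (Nat.count P x) = x := fun x hx =>
    Nat.nth_count (Or.inr (Or.inl hx))
  have hpos : ∀ x, 0 < Nat.nth P x ↔ 0 < x := by
    intro x
    constructor
    · intro h
      by_contra hx
      have : x = 0 := by omega
      rw [this, h0] at h
      omega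
    · intro h
      have := hmono h
      rwa [h0] at this
  refine ⟨Nat.nth P, w.map (Nat.count P), hmono, hpos, ?_, ?_⟩
  · have hnd : (w.map (Nat.count P)).Nodup := by
      refine List.Nodup.map_on ?_ hw.1
      intro x hx y hy hxy
      rw [← hw0 x hx, ← hw0 y hy, hxy]
    refine (List.Subperm.perm_of_length_le (List.subperm_of_subset hnd ?_) (by simp [hlen]))
    intro y hy
    rw [List.mem_map] at hy
    obtain ⟨x, hx, rfl⟩ := hy
    have h1 : 0 < Nat.count P x := (hpos _).mp (by rw [hw0 x hx]; exact hw.2 x hx)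
    have h2 : Nat.count P x ≤ 5 := by
      rw [Nat.count_eq_card_filter_range]
      have hsub : (Finset.range x).filter P ⊆ insert 0 (w.toFinset.erase x) := by
        intro y hy
        rw [Finset.mem_filter, Finset.mem_range] at hy
        rw [Finset.mem_insert, Finset.mem_erase, List.mem_toFinset]
        rcases hy.2 with h | h | h
        · exact Or.inl h
        · exact Or.inr ⟨by omega, h⟩
        · have := hle x hx
          omega
      refine (Finset.card_le_card hsub).trans ?_
      refine (Finset.card_insert_le _ _).trans ?_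
      rw [Finset.card_erase_of_mem (List.mem_toFinset.mpr hx), List.toFinset_card_of_nodup hw.1,
        hlen]
    simp only [List.mem_cons, List.not_mem_nil, or_false]
    omega
  · rw [List.map_map]
    conv_lhs => rw [← List.map_id w]
    exact List.map_congr_left fun x hx => (hw0 x hx).symm

theorem ncard_five {p q : List ℕ} (hp : IsPerm p) (hq : IsPerm q) (hd : p.Disjoint q)
    (hlen : p.length + q.length = 5) (hm : p.length = 1 ∨ p.length = 2) (a : ℕ) :
    Set.ncard {c ∈ shuffles p q | cst c = a} = count p.length a := by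
  have hw : IsPerm (p ++ q) := ⟨List.nodup_append'.mpr ⟨hp.1, hq.1, hd⟩, fun x hx => by
    rcases List.mem_append.mp hx with h | h
    · exact hp.2 x h
    · exact hq.2 x h⟩
  obtain ⟨e, w0, he, hpos, hw0, hmap⟩ := exists_std hw (by rw [List.length_append, hlen])
  have h1 : p = (w0.take p.length).map e := by
    have := congrArg (List.take p.length) hmap
    rwa [List.take_left', ← List.map_take] at this
    rfl
  have h2 : q = (w0.drop p.length).map e := by
    have := congrArg (List.drop p.length) hmap
    rwa [List.drop_left', ← List.map_drop] at this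
    rfl
  have hwp := isPerm_of_perm hw0
  have hp0 : IsPerm (w0.take p.length) := ⟨hwp.1.sublist (List.take_sublist _ _), fun x hx =>
    hwp.2 x (List.mem_of_mem_take hx)⟩
  have hq0 : IsPerm (w0.drop p.length) := ⟨hwp.1.sublist (List.drop_sublist _ _), fun x hx =>
    hwp.2 x (List.mem_of_mem_drop hx)⟩
  have hd0 : (w0.take p.length).Disjoint (w0.drop p.length) := by
    have := hwp.1
    rw [← List.take_append_drop p.length w0, List.nodup_append'] at this
    exact this.2.2
  have h3 : shuffles p q = Cycle.map e '' shuffles (w0.take p.length) (w0.drop p.length) := by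
    rw [← shuffles_map he.injective hpos hd0 hp0 hq0, ← h1, ← h2]
  have h4 : {c ∈ shuffles p q | cst c = a} = Cycle.map e ''
      {c ∈ shuffles (w0.take p.length) (w0.drop p.length) | cst c = a} := by
    rw [h3]
    ext c
    constructor
    · rintro ⟨⟨d, hd, rfl⟩, hc⟩
      exact ⟨d, ⟨hd, by rwa [cst_map he] at hc⟩, rfl⟩
    · rintro ⟨d, ⟨hd, hc⟩, rfl⟩
      exact ⟨⟨d, hd, rfl⟩, by rwa [cst_map he]⟩
  rw [h4, Set.ncard_image_of_injective _ (map_injective he.injective)]
  exact ncard_std hw0 _ hm a

/-! ### Other lengths -/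

theorem exists_relabel : ∀ l l' : List ℕ, l.Nodup → l'.Nodup → l.length = l'.length →
    ∃ g : Equiv.Perm ℕ, l.map g = l'
  | [], l', _, _, h => ⟨1, by
      rw [List.map_nil]
      exact (List.length_eq_zero_iff.mp (by simpa using h.symm)).symm⟩
  | a :: t, [], _, _, h => by simp at h
  | a :: t, b :: t', h, h', hl => by
    rw [List.nodup_cons] at h h'
    obtain ⟨g, hg⟩ := exists_relabel t t' h.2 h'.2 (by simpa using hl)
    refine ⟨g.trans (Equiv.swap (g a) b), ?_⟩
    rw [List.map_cons]
    congr 1
    · simp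
    · rw [← hg]
      refine List.map_congr_left fun x hx => ?_
      rw [Equiv.trans_apply]
      refine Equiv.swap_apply_of_ne_of_ne ?_ ?_
      · intro he
        rw [g.injective he] at hx
        exact h.1 hx
      · intro he
        apply h'.1
        rw [← hg, ← he]
        exact List.mem_map_of_mem hx

theorem ncard_shuffles_eq {p q p' q' : List ℕ} (hp : IsPerm p) (hq : IsPerm q) (hp' : IsPerm p')
    (hq' : IsPerm q') (hd : p.Disjoint q) (hd' : p'.Disjoint q') (h1 : p.length = p'.length)
    (h2 : q.length = q'.length) : (shuffles p q).ncard = (shuffles p' q').ncard := by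
  have hn : (0 :: (p ++ q)).Nodup := by
    rw [List.nodup_cons, List.nodup_append']
    refine ⟨fun h => ?_, hp.1, hq.1, hd⟩
    rcases List.mem_append.mp h with h | h
    · exact absurd (hp.2 0 h) (lt_irrefl 0)
    · exact absurd (hq.2 0 h) (lt_irrefl 0)
  have hn' : (0 :: (p' ++ q')).Nodup := by
    rw [List.nodup_cons, List.nodup_append']
    refine ⟨fun h => ?_, hp'.1, hq'.1, hd'⟩
    rcases List.mem_append.mp h with h | h
    · exact absurd (hp'.2 0 h) (lt_irrefl 0)
    · exact absurd (hq'.2 0 h) (lt_irrefl 0)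
  obtain ⟨g, hg⟩ := exists_relabel _ _ hn hn' (by simp [h1, h2])
  rw [List.map_cons, List.cons.injEq, List.map_append] at hg
  obtain ⟨hg0, hg1⟩ := hg
  obtain ⟨hgp, hgq⟩ := List.append_inj hg1 (by rw [List.length_map, h1])
  have hpos : ∀ x, 0 < g x ↔ 0 < x := by
    intro x
    rw [Nat.pos_iff_ne_zero, Nat.pos_iff_ne_zero, not_iff_not]
    constructor
    · intro h
      exact g.injective (h.trans hg0.symm)
    · rintro rfl
      exact hg0
  rw [← hgp, ← hgq, shuffles_map g.injective hpos hd hp hq,
    Set.ncard_image_of_injective _ (map_injective g.injective)]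

theorem cst_zero_of_mem {p q : List ℕ} (h : p.length + q.length ≠ 5) {c : Cycle ℕ}
    (hc : c ∈ shuffles p q) : cst c = 0 := by
  obtain ⟨t, -, h2, -, -, rfl⟩ := hc
  exact cst_eq_zero (by rw [h2]; exact h)

theorem shuffles_nil (q : List ℕ) (hq : IsPerm q) : shuffles [] q = {(q : Cycle ℕ)} := by
  ext c
  constructor
  · rintro ⟨t, -, h2, -, ⟨q', hq', hq''⟩, rfl⟩
    have : q' = t := hq''.eq_of_length (by
      rw [h2, hq'.perm.length_eq]
      simp)
    rw [Set.mem_singleton_iff, Cycle.coe_eq_coe, ← this]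
    exact hq'
  · rintro rfl
    exact ⟨q, hq, by simp, ⟨[], List.IsRotated.refl _, List.nil_sublist _⟩,
      ⟨q, List.IsRotated.refl _, List.Sublist.refl _⟩, rfl⟩

theorem ncard_nil (q q' : List ℕ) (hq : IsPerm q) (hq' : IsPerm q')
    (h : cst (q : Cycle ℕ) = cst (q' : Cycle ℕ)) (a : ℕ) :
    Set.ncard {c ∈ shuffles [] q | cst c = a} = Set.ncard {c ∈ shuffles [] q' | cst c = a} := by
  rw [shuffles_nil q hq, shuffles_nil q' hq']
  by_cases ha : cst (q : Cycle ℕ) = a
  · have e1 : {c ∈ ({(q : Cycle ℕ)} : Set (Cycle ℕ)) | cst c = a} = {(q : Cycle ℕ)} := by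
      ext c
      constructor
      · rintro ⟨h1, -⟩
        exact h1
      · rintro rfl
        exact ⟨rfl, ha⟩
    have e2 : {c ∈ ({(q' : Cycle ℕ)} : Set (Cycle ℕ)) | cst c = a} = {(q' : Cycle ℕ)} := by
      ext c
      constructor
      · rintro ⟨h1, -⟩
        exact h1
      · rintro rfl
        exact ⟨rfl, h ▸ ha⟩
    rw [e1, e2, Set.ncard_singleton, Set.ncard_singleton]
  · have e1 : {c ∈ ({(q : Cycle ℕ)} : Set (Cycle ℕ)) | cst c = a} = ∅ := by
      rw [Set.eq_empty_iff_forall_notMem]
      rintro c ⟨rfl, h2⟩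
      exact ha h2
    have e2 : {c ∈ ({(q' : Cycle ℕ)} : Set (Cycle ℕ)) | cst c = a} = ∅ := by
      rw [Set.eq_empty_iff_forall_notMem]
      rintro c ⟨rfl, h2⟩
      exact ha (h.trans h2)
    rw [e1, e2]

theorem cst_shuffleCompatible : ShuffleCompatible cst := by
  intro p q p' q' hp hq hp' hq' hd hd' hc hc' h1 h2 a
  by_cases h5 : p.length + q.length = 5
  · have h5' : p'.length + q'.length = 5 := by omega
    have hcases : p.length = 0 ∨ q.length = 0 ∨ (p.length = 1 ∨ p.length = 2) ∨
        (q.length = 1 ∨ q.length = 2) := by omega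
    rcases hcases with h | h | h | h
    · have e1 : p = [] := List.length_eq_zero_iff.mp h
      have e2 : p' = [] := List.length_eq_zero_iff.mp (h1 ▸ h)
      subst e1 e2
      exact ncard_nil q q' hq hq' hc' a
    · have e1 : q = [] := List.length_eq_zero_iff.mp h
      have e2 : q' = [] := List.length_eq_zero_iff.mp (h2 ▸ h)
      subst e1 e2
      rw [shuffles_comm p, shuffles_comm p']
      exact ncard_nil p p' hp hp' hc a
    · rw [ncard_five hp hq hd h5 h a, ncard_five hp' hq' hd' h5' (h1 ▸ h) a, h1]
    · rw [shuffles_comm p, shuffles_comm p', ncard_five hq hp hd.symm (by omega) h a,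
        ncard_five hq' hp' hd'.symm (by omega) (h2 ▸ h) a, h2]
  · have h5' : p'.length + q'.length ≠ 5 := by omega
    by_cases ha : a = 0
    · have e1 : {c ∈ shuffles p q | cst c = a} = shuffles p q := by
        ext c
        exact ⟨fun h => h.1, fun h => ⟨h, by rw [ha]; exact cst_zero_of_mem h5 h⟩⟩
      have e2 : {c ∈ shuffles p' q' | cst c = a} = shuffles p' q' := by
        ext c
        exact ⟨fun h => h.1, fun h => ⟨h, by rw [ha]; exact cst_zero_of_mem h5' h⟩⟩
      rw [e1, e2]
      exact ncard_shuffles_eq hp hq hp' hq' hd hd' h1 h2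
    · have e1 : {c ∈ shuffles p q | cst c = a} = ∅ := by
        rw [Set.eq_empty_iff_forall_notMem]
        rintro c ⟨h3, h4⟩
        exact ha (h4.symm.trans (cst_zero_of_mem h5 h3))
      have e2 : {c ∈ shuffles p' q' | cst c = a} = ∅ := by
        rw [Set.eq_empty_iff_forall_notMem]
        rintro c ⟨h3, h4⟩
        exact ha (h4.symm.trans (cst_zero_of_mem h5' h3))
      rw [e1, e2]

/-- **Answer to Q1: no.** There is a cyclic shuffle-compatible cyclic permutation statistic
which is not a cyclic descent statistic. -/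
theorem result : ∃ f : Cycle ℕ → ℕ, IsStatistic f ∧ ShuffleCompatible f ∧
    ∃ p q : List ℕ, IsPerm p ∧ IsPerm q ∧ p.length = q.length ∧
      cDesMultiset p = cDesMultiset q ∧ f (p : Cycle ℕ) ≠ f (q : Cycle ℕ) := by
  refine ⟨cst, cst_isStatistic, cst_shuffleCompatible, [5,1,3,2,4], [5,2,3,1,4], ?_, ?_, rfl,
    by decide, ?_⟩
  · exact isPerm_of_perm (by decide)
  · exact isPerm_of_perm (by decide)
  · have h1 : cst (([5,1,3,2,4] : List ℕ) : Cycle ℕ) = 1 :=
      (cst_canon (by decide +kernel)).mpr (by decide)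
    have h2 : cst (([5,2,3,1,4] : List ℕ) : Cycle ℕ) ≠ 1 := fun h =>
      absurd ((cst_canon (by decide +kernel)).mp h) (by decide)
    rw [h1]
    exact fun h => h2 h.symm

end Pool.Agent.Results.MP_f664e7_co.Disproof
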